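import Pool.Agent.Helper74.LL.Asm

/-!
# Project LL (MP_cc6379_al): final assembly
-/

set_option autoImplicit false

open LaurentPolynomial Pool.Agent.Helper15.RA Pool.Agent.Helper45.AM Pool.Agent.Helper15.AM

noncomputable section

namespace Pool.Agent.Helper74.LL

theorem Sm.subset {S : Type} {I J : Set S} (hI : Sm I) (h : J ⊆ I) : Sm J := by
  rcases hI with rfl | ⟨i, j, rfl⟩
  · exact Or.inl (Set.subset_empty_iff.1 h)
  · by_cases hi : i ∈ J
    · by_cases hj : j ∈ J
      · exact Or.inr ⟨i, j, Set.Subset.antisymm h (by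
          intro x hx
          rcases hx with rfl | hx
          · exact hi
          · rw [Set.mem_singleton_iff.1 hx]
            exact hj)⟩
      · refine Or.inr ⟨i, i, Set.Subset.antisymm (fun x hx => ?_) (fun x hx => ?_)⟩
        · rcases h hx with rfl | h1
          · exact Set.mem_insert _ _
          · exact absurd (Set.mem_singleton_iff.1 h1 ▸ hx) hj
        · simp only [Set.mem_insert_iff, Set.mem_singleton_iff, or_self] at hx
          rw [hx]
          exact hi
    · by_cases hj : j ∈ J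
      · refine Or.inr ⟨j, j, Set.Subset.antisymm (fun x hx => ?_) (fun x hx => ?_)⟩
        · rcases h hx with rfl | h1
          · exact absurd hx hi
          · rw [Set.mem_singleton_iff.1 h1]
            exact Set.mem_insert _ _
        · simp only [Set.mem_insert_iff, Set.mem_singleton_iff, or_self] at hx
          rw [hx]
          exact hj
      · refine Or.inl (Set.eq_empty_of_forall_notMem fun x hx => ?_)
        rcases h hx with rfl | h1
        · exact hi hx
        · exact hj (Set.mem_singleton_iff.1 h1 ▸ hx)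

theorem Sm.ncard {S : Type} {I : Set S} (hI : Sm I) : I.ncard ≤ 2 := by
  rcases hI with rfl | ⟨i, j, rfl⟩
  · simp
  · have h1 := Set.ncard_insert_le i ({j} : Set S)
    rw [Set.ncard_singleton] at h1
    exact h1

/-- The data `TD`. -/
theorem exists_TD {S W H : Type} [Finite S] [Group W] [Ring H] [Algebra ℤ[T;T⁻¹] H] {M : CoxeterMatrix S}
    (cs : CoxeterSystem M W) (L : W → ℕ) (hL : IsWeight cs L) (fin : ∀ i j, M i j ≠ 0)
    (mat : ∀ i j k, M i j = 2 → M i k = 2 → j = k)
    (lw : ∀ i j k, i ≠ j → M i j ≠ 2 → 12 * L (cs.simple k) < M i j * (L (cs.simple i) + L (cs.simple j)))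
    (X : Base S W H) (hM : X.M = M) (hcs : HEq X.cs cs) (hXL : X.L = L) :
    ∃ Y : TD S W H, Y.toBase = X := by
  classical
  obtain ⟨M', cs', L', wt, D, h, isH, b, hb⟩ := X
  dsimp only at hM hcs hXL
  subst hM
  subst hXL
  obtain rfl := eq_of_heq hcs
  let X : Base S W H := ⟨M', cs', L', wt, D, h, isH, b, hb⟩
  have hPG : ∀ I : Set S, Sm I → ∃ α : W → ℕ, PG D h I α := by
    intro I hI
    have h1 : GoodSysU (subM M' I).toCoxeterSystem (fun g => L' (iotaP cs' I g)) := by
      refine goodSysU_two factsF _ _ ((factsF.gPS S W M' cs' I Subtype.val Subtype.val_injective).2.2.2 L' wt)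
        (fun i j => fin i.1 j.1) ?_
      rw [Nat.card_coe_set_eq]
      exact hI.ncard
    obtain ⟨α, hα⟩ := factsF.vC S W H X I Subtype.val Subtype.val_injective h1
    rw [Subtype.range_val] at hα
    exact ⟨α, hα⟩
  choose! αI hαI using hPG
  let α : W → ℕ := fun w => if hw : ∃ I : Set S, Sm I ∧ w ∈ par cs' I then αI hw.choose w else 0
  have hα : ∀ I : Set S, Sm I → ∀ w ∈ par cs' I, α w = αI I w := by
    intro I hI w hw
    have hex : ∃ I : Set S, Sm I ∧ w ∈ par cs' I := ⟨I, hI, hw⟩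
    have h1 : α w = αI hex.choose w := dif_pos hex
    obtain ⟨hJ, hwJ⟩ := hex.choose_spec
    set J := hex.choose with hJdef
    rw [h1]
    have hK : Sm (I ∩ J) := hI.subset Set.inter_subset_left
    have hwK : w ∈ par cs' (I ∩ J) := by
      have h5 := ((factsF.gPB S W M' cs').2 I).2.2.2.2.2 J
      rw [← h5]
      exact ⟨hw, hwJ⟩
    have e1 := factsF.p12 S W H X (I ∩ J) I (αI (I ∩ J)) (αI I) Set.inter_subset_left (hαI _ hK) (hαI _ hI) w hwK
    have e2 := factsF.p12 S W H X (I ∩ J) J (αI (I ∩ J)) (αI J) Set.inter_subset_right (hαI _ hK) (hαI _ hJ) w hwK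
    rw [← e1, ← e2]
  exact ⟨{ X with
    α := α
    pg := fun I hI => pg_congr (hαI I hI) (hα I hI)
    fin := fin
    mat := mat
    lw := lw }, rfl⟩

variable (F : Facts)

include F

/-- Coxeter groups with large labels are good. -/
theorem large_good {S W : Type} [Finite S] [Group W] {M : CoxeterMatrix S}
    (cs : CoxeterSystem M W) (L : W → ℕ) (hL : IsWeight cs L) (fin : ∀ i j, M i j ≠ 0)
    (mat : ∀ i j k, M i j = 2 → M i k = 2 → j = k)
    (lw : ∀ i j k, i ≠ j → M i j ≠ 2 → 12 * L (cs.simple k) < M i j * (L (cs.simple i) + L (cs.simple j))) :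
    GoodSysU cs L := by
  intro H _ _ D
  obtain ⟨h, b, isH, hb⟩ := exists_base cs L hL D
  obtain ⟨Y, hY⟩ := exists_TD cs L hL fin mat lw ⟨M, cs, L, hL, D, h, isH, b, hb⟩ rfl HEq.rfl rfl
  have key := pg_univ' F Y k_e7
  obtain ⟨r1, r2, r3⟩ := factsF.vD S W H Y.toBase _ key
  rw [hY] at r1 r2 r3
  exact ⟨r1, h, _, r2, r3⟩

/-- The main theorem. -/
theorem mainLL {S W : Type} [Finite S] [Group W] (M : CoxeterMatrix S) (cs : CoxeterSystem M W) (L : W → ℕ)
    (hL : IsWeight cs L)
    (hyp : ∀ P : Set S, 3 ≤ P.ncard → (∀ i ∈ P, ∀ j ∈ P, M i j ≠ 0) →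
      (∀ A ⊆ P, A.Nonempty → A ≠ P → ∃ i ∈ A, ∃ j ∈ P \ A, M i j ≠ 2) →
      ((∀ i ∈ P, ∀ j ∈ P, ∀ k ∈ P, M i j = 2 → M i k = 2 → j = k) ∧
        ∀ i ∈ P, ∀ j ∈ P, ∀ k ∈ P, i ≠ j → M i j ≠ 2 →
          12 * L (cs.simple k) < M i j * (L (cs.simple i) + L (cs.simple j))) ∨
      GoodSysU (subM M P).toCoxeterSystem (fun g => L (iotaP cs P g))) :
    (∃ (H : Type) (_ : Ring H) (_ : Algebra ℤ[T;T⁻¹] H), Nonempty (Hecke cs L H)) ∧
    ∀ (H : Type) [Ring H] [Algebra ℤ[T;T⁻¹] H] (D : Hecke cs L H),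
      D.Bdd ∧ ∃ h a, Good D h a ∧ HasU h a ∧ JAssoc h a ∧ ∀ h' a', D.IsH h' → IsA h' a' → h' = h ∧ a' = a := by
  refine mainF factsF M cs L hL fun P h3 hfin hirr => ?_
  rcases hyp P h3 hfin hirr with ⟨hmat, hlw⟩ | h
  · have hs : ∀ i : P, iotaP cs P ((subM M P).toCoxeterSystem.simple i) = cs.simple i.1 := fun i =>
      CoxeterSystem.lift_apply_simple _ (liftP cs P) i
    refine large_good F _ _ ((factsF.gPS S W M cs P Subtype.val Subtype.val_injective).2.2.2 L hL)
      (fun i j => hfin i.1 i.2 j.1 j.2)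
      (fun i j k h1 h2 => Subtype.ext (hmat i.1 i.2 j.1 j.2 k.1 k.2 h1 h2)) fun i j k hij hm => ?_
    rw [hs, hs, hs]
    exact hlw i.1 i.2 j.1 j.2 k.1 k.2 (fun h => hij (Subtype.ext h)) hm
  · exact h

end Pool.Agent.Helper74.LL
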