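import Pool.Agent.Helper15.AM.All

/-!
# Project LL (MP_cc6379_al): Coxeter groups with large labels. Definitions.

`cs.IsRightDescent w i` (`ℓ(w s_i) < ℓ(w)`) and `cs.IsLeftDescent w i` (`ℓ(s_i w) < ℓ(w)`) are Mathlib's. `par cs P = W_P`,
`XR cs P x` (`x ∈ X_P`), `XL cs P y` (`y ∈ Y_P`), `Base`, `PG` are in `Pool.Agent.Helper45.AM.Defs`; `al cs i j k = s_i s_j s_i ⋯` (`k`
factors) in `Pool.Agent.Helper15.RA.GoalsR`. All facts `G_*`, `A_*`, `H_*` of the projects RA and AM are proved: they are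
`Pool.Agent.Helper15.AM.k_gpa`, `k_gpb`, `k_gpc`, `k_gd`, `k_gps`, `k_vb`, `k_ab`, `k_as`, `k_am`, `k_ak`, `k_al`, `k_ap`, `k_aj`, `k_ac`, `k_a1`,
`k_ar`, ... and `Pool.Agent.Helper15.RA.g_h1`, `g_h2`, `g_h3`, `g_hv` (import `Pool.Agent.Helper15.AM.All`).
-/

set_option autoImplicit false

open LaurentPolynomial Pool.Agent.Helper15.RA Pool.Agent.Helper45.AM

noncomputable section

namespace Pool.Agent.Helper74.LL

/-! ## Coxeter groups -/

/-- Large labels: `m_ij` finite, every `i` commutes with at most one other generator, all other `m_ij` are at least `7`. -/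
structure Lg {S : Type} (M : CoxeterMatrix S) : Prop where
  fin : ∀ i j, M i j ≠ 0
  mat : ∀ i j k, M i j = 2 → M i k = 2 → j = k
  big : ∀ i j, i ≠ j → M i j ≠ 2 → 7 ≤ M i j

section cox

variable {S W : Type} [Group W] {M : CoxeterMatrix S} (cs : CoxeterSystem M W)

/-- the longest element of `W_{i,j}` (`i ≠ j`) -/
def w0 (i j : S) : W := al cs i j (M i j)

/-- `g ∈ W_{i,j}` and `g` is in no proper parabolic subgroup of `W_{i,j}`. -/
def Full (i j : S) (g : W) : Prop :=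
  g ∈ par cs {i, j} ∧ g ∉ par cs ({i} : Set S) ∧ g ∉ par cs ({j} : Set S)

/-- type A -/
def TA (x g y : W) : Prop := ∃ a b c : S, a ≠ b ∧ a ≠ c ∧ b ≠ c ∧ g = cs.simple a * cs.simple b ∧
  cs.IsRightDescent (x * cs.simple a) c ∧ cs.IsLeftDescent (cs.simple b * y) c

/-- type B -/
def TB (x g y : W) : Prop := ∃ a b c : S, a ≠ c ∧ b ≠ c ∧ M a b = 2 ∧ g = cs.simple a * cs.simple c ∧
  cs.IsRightDescent x b ∧ cs.IsRightDescent (x * cs.simple b * cs.simple a) c ∧
  ¬ cs.IsLeftDescent (cs.simple c * y) b ∧ cs.IsLeftDescent (cs.simple b * cs.simple c * y) c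

/-- type B' (mirror image of type B) -/
def TBm (x g y : W) : Prop := ∃ a b c : S, a ≠ c ∧ b ≠ c ∧ M a b = 2 ∧ g = cs.simple c * cs.simple b ∧
  cs.IsLeftDescent y a ∧ cs.IsLeftDescent (cs.simple b * cs.simple a * y) c ∧
  ¬ cs.IsRightDescent (x * cs.simple c) a ∧ cs.IsRightDescent (x * cs.simple c * cs.simple a) c

/-- type C -/
def TC (x g y : W) : Prop := ∃ a b c : S, a ≠ b ∧ a ≠ c ∧ M b c = 2 ∧
  g = cs.simple a * cs.simple b * cs.simple a ∧
  cs.IsRightDescent (x * cs.simple a) c ∧ cs.IsLeftDescent (cs.simple a * y) c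

end cox

/-! ## The Hecke algebra -/

/-- `I` has at most two elements. -/
def Sm {S : Type} (I : Set S) : Prop := I = ∅ ∨ ∃ i j, I = {i, j}

/-- The data of the project: a Coxeter group with large labels and weights, and its Hecke algebra; `α` is the function `a` of the
parabolic subgroups of rank at most two. -/
structure TD (S W H : Type) [Group W] [Ring H] [Algebra ℤ[T;T⁻¹] H] extends Base S W H where
  α : W → ℕ
  pg : ∀ I : Set S, Sm I → PG D h I α
  fin : ∀ i j, M i j ≠ 0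
  mat : ∀ i j k, M i j = 2 → M i k = 2 → j = k
  lw : ∀ i j k, i ≠ j → M i j ≠ 2 →
    12 * L (cs.simple k) < M i j * (L (cs.simple i) + L (cs.simple j))

namespace TD

variable {S W H : Type} [Group W] [Ring H] [Algebra ℤ[T;T⁻¹] H] (X : TD S W H)

/-- The admissible triples. -/
def Adm (x g y : W) : Prop := ∃ I : Set S, Sm I ∧ XR X.cs I x ∧ g ∈ par X.cs I ∧ XL X.cs I y

/-- `T_x c_g T_y` -/
def B (x g y : W) : H := X.D.t x * X.D.c g * X.D.t y

/-- `a'(w) ≥ m`: there is a reduced product `w = u g u'` with `g ∈ W_I`, `|I| ≤ 2`, `α(g) ≥ m`. -/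
def Ge (m : ℕ) (w : W) : Prop := ∃ (u g u' : W) (I : Set S), Sm I ∧ g ∈ par X.cs I ∧ w = u * g * u' ∧
  X.cs.length w = X.cs.length u + X.cs.length g + X.cs.length u' ∧ m ≤ X.α g

/-- Modulo `{c_z : Ge (M+1) z}`, all `c`-coordinates of `Z` have degree at most `k`, and the coefficient of `v^k` is nonzero only at `z`
with `Ge M z`. -/
def LP (M : ℕ) (k : ℤ) (Z : H) : Prop := ∀ z, ¬ X.Ge (M + 1) z →
  DegLE k (X.b.repr Z z) ∧ ((X.b.repr Z z).coeff k ≠ 0 → X.Ge M z)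

/-- `{c_z : Ge (M+1) z}` spans a two-sided ideal. -/
def Id (M : ℕ) : Prop := ∀ x y z, X.Ge (M + 1) x ∨ X.Ge (M + 1) y → X.h x y z ≠ 0 → X.Ge (M + 1) z

/-- the main estimate for triples with `ℓ(x) + ℓ(y) < n` -/
def BP (M n : ℕ) : Prop := ∀ x g y, X.Adm x g y → X.cs.length x + X.cs.length y < n →
  X.LP M ((M : ℤ) - X.α g) (X.B x g y)

/-- `T_u T_u'`, `ℓ(u) + ℓ(u') ≤ n` -/
def N0 (M n : ℕ) : Prop := ∀ u u', X.cs.length u + X.cs.length u' ≤ n → X.LP M M (X.D.t u * X.D.t u')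

/-- `T_u T_b T_u'`, `b ∉ R(u)`, `b ∉ L(u')`, `ℓ(u) + ℓ(u') ≤ n` -/
def N1 (M n : ℕ) : Prop := ∀ (u u' : W) (b : S), ¬ X.cs.IsRightDescent u b → ¬ X.cs.IsLeftDescent u' b →
  X.cs.length u + X.cs.length u' ≤ n →
  X.LP M ((M : ℤ) - X.L (X.cs.simple b)) (X.D.t u * X.D.t (X.cs.simple b) * X.D.t u')

/-- full triples with `ℓ(x) + ℓ(y) < n`: degree at most `max 1 (M - L(g))` -/
def N2 (M n : ℕ) : Prop := ∀ (i j : S) (x g y : W), i ≠ j → XR X.cs {i, j} x → Full X.cs i j g → XL X.cs {i, j} y →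
  X.cs.length x + X.cs.length y < n →
  X.LP M (max 1 ((M : ℤ) - X.L g)) (X.D.t x * X.D.t g * X.D.t y)

/-- nonreduced full triples with `ℓ(x) + ℓ(y) < n`: degree at most `max 0 (M - L(g))` -/
def UU (M n : ℕ) : Prop := ∀ (i j : S) (x g y : W), i ≠ j → XR X.cs {i, j} x → Full X.cs i j g → XL X.cs {i, j} y →
  X.cs.length x + X.cs.length y < n →
  X.cs.length (x * g * y) ≠ X.cs.length x + X.cs.length g + X.cs.length y →
  X.LP M (max 0 ((M : ℤ) - X.L g)) (X.D.t x * X.D.t g * X.D.t y)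

end TD

end Pool.Agent.Helper74.LL
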