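import Pool.Agent.Helper74.LL.Basic
import Pool.Agent.Helper74.LL.GoalsR

/-!
# Project LL (MP_cc6379_al): goals, part H. Degree estimates.

`X : TD S W H` (see `Defs.lean`); `T_w = X.D.t w`, `c_w = X.D.c w`, `L_i = X.L (X.cs.simple i)`, `ℓ = X.cs.length`, `ξ_i = xi L_i = v^(L_i) - v^(-L_i)`. `LP M k Z`: modulo `Vm M` (the span of the `c_z`, `Ge (M+1) z`) all `c`-coordinates of `Z` have degree `≤ k`, and `v^k` occurs only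
at `z` with `Ge M z`. Lemmas on `LP` (sums, multiples, `LP.mono`, `LP.t : LP M 1 (T_w)`, `LP.t_of_ge`, `LP.of_Vm`, `Vm_mul_left/right`) are in `Basic.lean`. Multiplication: `X.D.mul` (`T_w T_w' = T_(w w')` if reduced) and `H_1` (`g_h1`): `T_w T_s = T_(w s)` or `ξ_s T_w + T_(w s)`. `L` is additive on reduced products (`X.wt`).
The facts on Coxeter groups `KD1, KD2, K1, GEO, RA0, ..` are hypotheses; `Lg X.M` is `HWT` (1). Notation for products: `a b` for `s_a s_b`, `R(w)`, `L(w)` descents.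
`Ge m g` for `g ∈ W_I`, `Sm I`, `m ≤ α g`: take `u = u' = 1` in the definition; `Ge` is monotone in `m` (obvious from the definition).
-/

set_option autoImplicit false

open LaurentPolynomial Pool.Agent.Helper15.RA Pool.Agent.Helper45.AM

noncomputable section

namespace Pool.Agent.Helper74.LL

/-- PACKET LL-HWT (2 h). From `KD1`. Weights in dihedral groups; the system has large labels.

PROOF. `Lg`: `fin`, `mat` are fields; `big`: `m := M i j`, `i ≠ j`, `m ≠ 2`: `lw i j k` for `k = i` and `k = j`: `12 L_i < m (L_i + L_j)`, `12 L_j < m (L_i + L_j)`; add: `12 (L_i + L_j) < 2 m (L_i + L_j)`, so `m > 6`. `L(1) = 0` (`L(1 * 1)`), `L_i ≥ 1` (`X.wt.pos`, `s_i ≠ 1`). `L(w⁻¹) = L(w)`: `L(w)` is the sum of the `L_i` over a reduced word. For `w0 = al a c m = al c a m` (`KD1`):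
`L(al a c m) + L(al c a m) = m (L_a + L_c)` (induction, the words are reduced up to length `m`), so `2 L(w0) = m (L_a + L_c) > 12 L_r`. For `z ∈ W_ac`, `z ≠ w0`: `u := z⁻¹ w0 ≠ 1`, `w0 = z u` is reduced (`KD1` for `z⁻¹`: `ℓ(w0 z) + ℓ(z) = m`, and inverses), `L(w0) = L(z) + L(u)`. `u ∈ W_ac` is alternating: `u ≠ 1`: `L(u) ≥ 1`; `u ≠ s_c` (i.e. `z ≠ w0 c`): `u` contains the letter `a`:
`L(u) ≥ L_a`; `ℓ(u) ≥ 2`: `L(u) ≥ L_a + L_c`. With `u' := w0 z⁻¹`: `u' ≠ s_c` iff `z ≠ c w0`. `ℓ(z) ≤ 2`, `≤ 3`: `KD1` (lists). -/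
def HWT : Prop := ∀ (S W H : Type) [Group W] [Ring H] [Algebra ℤ[T;T⁻¹] H] (X : TD S W H),
  Lg X.M ∧ X.L 1 = 0 ∧ (∀ i, 1 ≤ X.L (X.cs.simple i)) ∧ (∀ w, X.L w⁻¹ = X.L w) ∧
  ∀ a c, a ≠ c →
    (X.M a c ≠ 2 → ∀ r, 6 * X.L (X.cs.simple r) + 1 ≤ X.L (w0 X.cs a c)) ∧
    X.L (X.cs.simple a * X.cs.simple c) = X.L (X.cs.simple a) + X.L (X.cs.simple c) ∧
    (X.M a c ≠ 2 →
      X.L (X.cs.simple a * X.cs.simple c * X.cs.simple a) = 2 * X.L (X.cs.simple a) + X.L (X.cs.simple c)) ∧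
    X.L (w0 X.cs a c) = X.L (w0 X.cs a c * X.cs.simple c) + X.L (X.cs.simple c) ∧
    X.L (w0 X.cs a c) = X.L (X.cs.simple c * w0 X.cs a c) + X.L (X.cs.simple c) ∧
    ∀ z ∈ par X.cs {a, c}, z ≠ w0 X.cs a c →
      X.L z + 1 ≤ X.L (w0 X.cs a c) ∧
      (z ≠ w0 X.cs a c * X.cs.simple c → X.L z + X.L (X.cs.simple a) ≤ X.L (w0 X.cs a c)) ∧
      (z ≠ X.cs.simple c * w0 X.cs a c → X.L z + X.L (X.cs.simple a) ≤ X.L (w0 X.cs a c)) ∧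
      (X.cs.length z + 2 ≤ X.M a c →
        X.L z + X.L (X.cs.simple a) + X.L (X.cs.simple c) ≤ X.L (w0 X.cs a c)) ∧
      (X.cs.length z ≤ 2 → X.L z ≤ X.L (X.cs.simple a) + X.L (X.cs.simple c)) ∧
      (X.cs.length z ≤ 3 → X.L z ≤ 2 * X.L (X.cs.simple a) + X.L (X.cs.simple c) ∨
        X.L z ≤ X.L (X.cs.simple a) + 2 * X.L (X.cs.simple c))

/-- PACKET LL-HW0 (2.5 h). From `KD1`, `HWT`. The elements `c_(w0)`, and `α(1)`, `α(s_i)`, `α(w0)`.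

PROOF. `α 1 = 0`: `A_P` (`k_ap`) for `I = ∅`. `I = {i}` (`= {i, i}`, so `Sm I`): `c_s = T_s + v^(-L_s)`, `c_s c_s = dl(L_s) c_s` (`H_2`): `p1`: the `T_1`-coordinate `v^(-L_s)` has degree `≤ -α(s)`: `α(s) ≤ L_s`; `deg`: `h s s s = dl(L_s)` has degree `≤ α(s)`: `L_s ≤ α(s)`. `I = {a,c}`: `W_I` is finite (`KD1`: lengths `≤ m`; alternating words). `ω := ∑_(z ∈ W_I) v^(L z - L(w0)) T_z`.
For `s ∈ I` and `s z > z` the pair `T_z`, `T_(s z)` has the coefficients `q`, `v^(L_s) q`, so `T_s ω = v^(L_s) ω`; an element `Y` supported in `W_I` with `T_s Y = v^(L_s) Y` for `s = a, c` is a multiple of `ω`. `bar ω` is supported in `W_I` (`A_S`), `T_s bar ω = v^(L_s) bar ω` (`bar T_s = T_s - ξ_s`), its `T_(w0)`-coordinate is `1` (`H_2`): `bar ω = ω`; `L(z) < L(w0)` for `z ≠ w0` (`HWT`): `ω = c_(w0)` by the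
uniqueness in `H_2`. [Or: transfer `R_T` (`Pool.Agent.Helper15.RA`, proved, dihedral groups) with `V_B` (`k_vb`) for `e = Subtype.val : {a,c} → S`.] `α(w0)`: `p1`: `-L(w0) ≤ -α(w0)`. `T_z ω = v^(L z) ω`, so `ω ω = (∑ v^(2 L z - L(w0))) ω`, and the coefficient of `v^(L(w0))` in `h w0 w0 w0` is `1` (only `z = w0`): `deg`: `L(w0) ≤ α(w0)`. -/
def HW0 : Prop := ∀ (S W H : Type) [Group W] [Ring H] [Algebra ℤ[T;T⁻¹] H] (X : TD S W H),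
  X.α 1 = 0 ∧ (∀ i, X.α (X.cs.simple i) = X.L (X.cs.simple i)) ∧
  ∀ a c, a ≠ c → X.α (w0 X.cs a c) = X.L (w0 X.cs a c) ∧
    (∀ z, z ∉ par X.cs {a, c} → X.D.t.repr (X.D.c (w0 X.cs a c)) z = 0) ∧
    (∀ z ∈ par X.cs {a, c}, X.D.t.repr (X.D.c (w0 X.cs a c)) z = T ((X.L z : ℤ) - X.L (w0 X.cs a c)))

/-- PACKET LL-HPB (2 h). No hypotheses (use `k_ab`, `k_as`, `g_h1`, `g_h2`). The coefficients of `c_g`.

PROOF. `u := g'⁻¹`. (1) For all `u, w`: the `T`-coordinates of `T_u T_w` have degree `≤ L(u)`: induction on `ℓ(u)`, `u = u' s` reduced (or `s u'`), `T_s T_w` is `T_(s w)` or `ξ_s T_w + T_(s w)`. So the `T`-coordinates of `T_u c_g` have degree `≤ L(u)` (those of `c_g` have degree `≤ 0`, `H_2`), and so have its `c`-coordinates `η_k` (`A_B`). (2) `η_k ≠ 0` implies `k ∈ W_I` and `α k ≥ α g`: `T_u = ∑ q_w c_w` with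
`w ∈ W_I` (`A_S`), `c_w c_g = ∑ h w g k c_k`, `k ∈ W_I`, `p4`. (3) The `T_1`-coordinate of `T_u c_g` is `∑_k p_k δ(u k = 1) = p_(g')`, where `p_k` are the `T`-coordinates of `c_g` (`H_1`); it is also `∑_k η_k τ(c_k)` with `deg τ(c_k) ≤ -α k ≤ -α g` (`p1`). So `deg p_(g') ≤ L(u) - α g`, `L(u) = L(g')`. -/
def HPB : Prop := ∀ (S W H : Type) [Group W] [Ring H] [Algebra ℤ[T;T⁻¹] H] (X : TD S W H) (I : Set S) (g g' : W),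
  Sm I → g ∈ par X.cs I → g' ∈ par X.cs I → DegLE ((X.L g' : ℤ) - X.α g) (X.D.t.repr (X.D.c g) g')

/-- PACKET LL-HN (3 h). From `KD2`, `HW0`. The triples `(x, 1, y)` and `(x, s_i, y)`. (`k_ar` = `A_R` is the main tool.)

PROOF. Let `g = 1`, `P = ∅`, or `g = s_i`, `P = {i}` (`α g = 0`, `= L_i` by `HW0`; `Sm P`; `XR P x`, `XL P y`). If `ℓ(x) + ℓ(y) < n`: `BP M n` (`B x 1 y = T_x T_y`, as `c_1 = 1`). Let `ℓ(x) + ℓ(y) = n`. If `x = y = 1`: `B = c_g`, coordinate `1` at `g`, `0` elsewhere; if not `Ge (M+1) g` then `α g ≤ M`, so `1` has degree `0 ≤ M - α g`, and its coefficient at `M - α g` is `≠ 0` only if `M = α g`, then `Ge M g`.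
Otherwise there is `v ∈ R(x)` or `v ∈ L(y)` (mirror image, do both). Let `v ∈ R(x)`, `Q = P ∪ {v}` (`Sm Q`, `P ⊆ Q`). `x = x' q`, `XR Q x'`, `q ∈ W_Q`, `q ≠ 1` (since `v ∈ R(x)`), `XR P q` (lengths are additive); `y = q' y'`, `XL Q y'`, `q' ∈ W_Q`, `XL P q'`. (Case `v ∈ L(y)`: `q' ≠ 1`.) `T_x c_g T_y = T_(x') (T_q c_g T_(q')) T_(y')`. By `A_R` (`P ⊆ Q`, `α`): `T_q c_g T_(q') = ∑ η_k c_k`, `k ∈ W_Q`,
`deg η_k ≤ α k - α g`. `B x' k y'` is admissible (for `Q`) with `ℓ(x') + ℓ(y') < n`: it is in `LP M (M - α k)` by `BP M n`, so `η_k B x' k y' ∈ LP M (M - α g)` (`LP.smul_le`). Sum. The third clause: `T_b = c_b - v^(-L_b)` (`H_2`), `T_u T_b T_u' = T_u c_b T_u' - v^(-L_b) T_u T_u'`. -/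
def HN : Prop := ∀ (S W H : Type) [Group W] [Ring H] [Algebra ℤ[T;T⁻¹] H] (X : TD S W H) (M n : ℕ), X.BP M n →
  X.N0 M n ∧
  (∀ (x y : W) (i : S), ¬ X.cs.IsRightDescent x i → ¬ X.cs.IsLeftDescent y i → X.cs.length x + X.cs.length y ≤ n →
    X.LP M ((M : ℤ) - X.L (X.cs.simple i)) (X.D.t x * X.D.c (X.cs.simple i) * X.D.t y)) ∧
  X.N1 M n

/-- PACKET LL-HF (3 h). From `HWT`, `HW0`, `HPB`, `HN`. The step from the products `T_x T_g' T_y` to `B x g y`.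

PROOF. Let `(x, g, y)` be admissible for `I` with `ℓ(x) + ℓ(y) ≤ n`; if `< n`: `BP M n`. If `g = 1` or `g = s_i` (then `i ∈ I`, so `i ∉ R(x)`, `i ∉ L(y)`): `HN` and `HW0`. Otherwise `I = {i, j}`, `i ≠ j`, `g` full (elements of `W_i` are `1, s_i`). If `M < α g`: `Ge (M+1) g`, so `c_g ∈ Vm M`, `B x g y ∈ Vm M` (`Vm_mul_left`, `Vm_mul_right`), `LP.of_Vm`. Let `α g ≤ M`.
`c_g = ∑_k p_k T_k`, `k ∈ W_I` (`A_S`). Full `k`: claim `p_k T_x T_k T_y ∈ LP M (M - α g)`. If `ℓ(x k y) ≠ ℓ(x) + ℓ(k) + ℓ(y)`: `UU M (n+1)`: `T_x T_k T_y ∈ LP M (max 0 (M - L k))`; `deg p_k ≤ 0` (`H_2`) and `≤ L k - α g` (`HPB`): if `M ≥ L k` the total is `≤ M - α g`, otherwise `≤ 0 ≤ M - α g`. If `x k y` is reduced: `T_x T_k T_y = T_(x k y)`; `k ≠ g`: `deg p_k ≤ -1`, `LP.t_smul`;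
`k = g`: `p_g = 1`; if `α g < M`: `LP.t`, `1 ≤ M - α g`; if `α g = M`: `Ge M (x g y)` (definition of `Ge`), `LP.t_of_ge`. The other `k` are `1, s_i, s_j`: `p_1 + p_i T_i + p_j T_j = p_i c_i + p_j c_j + (p_1 - p_i v^(-L_i) - p_j v^(-L_j)) · 1` (`c_i = T_i + v^(-L_i)`), `deg p_i ≤ L_i - α g`, `deg p_j ≤ L_j - α g`, `deg p_1 ≤ -α g` (`HPB`, `L(1) = 0`), so the last coefficient has degree
`≤ -α g`. `T_x c_i T_y ∈ LP M (M - L_i)`, `T_x T_y ∈ LP M M` (`HN`). Sum. -/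
def HF : Prop := ∀ (S W H : Type) [Group W] [Ring H] [Algebra ℤ[T;T⁻¹] H] (X : TD S W H) (M n : ℕ),
  X.Id M → X.BP M n → X.UU M (n + 1) → X.BP M (n + 1)

/-- PACKET LL-HRL (1.5 h). From `KD1`, `HW0`. The relation `c_(w0) = 0` modulo `Vm M`.

PROOF. `w = w0`. `c_w = T_w + ∑_(z ∈ W_ac, z ≠ w) v^(L z - L w) T_z` (`HW0`). `c_w ∈ Vm M` (`c_mem_Vm`), so `T_x c_w Z ∈ Vm M` (`Vm_mul_left`, `Vm_mul_right`). `T_x T_z = T_(x z)` (`G_PA`). So `T_(x w) Z = T_x c_w Z - ∑ v^(L z - L w) T_(x z) Z`, every term of the sum is in `LP M k` (`LP.smul_T`), `LP.congr`. The second clause is the same on the other side. -/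
def HRL : Prop := ∀ (S W H : Type) [Group W] [Ring H] [Algebra ℤ[T;T⁻¹] H] (X : TD S W H) (M : ℕ) (k : ℤ)
    (a c : S) (Z : H), a ≠ c → X.Id M → X.Ge (M + 1) (w0 X.cs a c) →
  (∀ x, XR X.cs {a, c} x → (∀ z ∈ par X.cs {a, c}, z ≠ w0 X.cs a c →
      X.LP M (k + X.L (w0 X.cs a c) - X.L z) (X.D.t (x * z) * Z)) → X.LP M k (X.D.t (x * w0 X.cs a c) * Z)) ∧
  (∀ y, XL X.cs {a, c} y → (∀ z ∈ par X.cs {a, c}, z ≠ w0 X.cs a c →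
      X.LP M (k + X.L (w0 X.cs a c) - X.L z) (Z * X.D.t (z * y))) → X.LP M k (Z * X.D.t (w0 X.cs a c * y)))

/-- PACKET LL-HM (1.5 h). From `HWT`. Mirror images (`k_am` = `A_M`).

PROOF. (1) `w = u g u'` reduced iff `w⁻¹ = u'⁻¹ g⁻¹ u⁻¹` reduced; `α g⁻¹ = α g` (`A_P`). (2) `F` of `A_M`: `X.b.repr (F Z) z = X.b.repr Z z⁻¹`, so `LP M k Z → LP M k (F Z)` by (1); `F(T_x T_g T_y) = T_(y⁻¹) T_(g⁻¹) T_(x⁻¹)`. (3) `IsRightDescent w⁻¹ i ↔ IsLeftDescent w i`. `TBm x g y` with `(a, b, c)` gives `TB y⁻¹ g⁻¹ x⁻¹` with `(b, a, c)`. (4) `par` is closed under inverses. -/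
def HM : Prop := ∀ (S W H : Type) [Group W] [Ring H] [Algebra ℤ[T;T⁻¹] H] (X : TD S W H),
  (∀ m w, X.Ge m w⁻¹ ↔ X.Ge m w) ∧
  (∀ M k x g y, X.LP M k (X.D.t y⁻¹ * X.D.t g⁻¹ * X.D.t x⁻¹) → X.LP M k (X.D.t x * X.D.t g * X.D.t y)) ∧
  (∀ x g y, TBm X.cs x g y → TB X.cs y⁻¹ g⁻¹ x⁻¹) ∧
  (∀ i j g, Full X.cs i j g → Full X.cs i j g⁻¹)

/-- PACKET LL-ULOW (2 h). From `KD2`, `K1`, `HWT`, `HRL`. The first case of the main estimate, low level.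

PROOF. `w = w_ac`, `h = w c`. `k := max 0 (M - L_a - L_b)`. `T_x T_(ab) T_y = T_(x a) T_(b y) = T_(x₅ w) Z`, `Z = T_(b y)`. `HRL`: it suffices that `T_(x₅ z) T_(b y) ∈ LP M (k + L w - L z)` for all `z ∈ W_ac`, `z ≠ w`. `z = h`: hypothesis, `L w - L h = L_c ≥ 1` (`HWT`). `z ≠ h`: `L w - L z ≥ L_a`; `ℓ(x₅ z) ≤ ℓ(x₅) + M a c - 1 = ℓ(x)` (`KD1` not needed: `ℓ(x₅ z) = ℓ(x₅) + ℓ(z)`, `ℓ(z) < ℓ(w)`,
`ℓ(x) + 1 = ℓ(x₅) + ℓ(w)`). If `b ∉ R(x₅ z)`: `T_(x₅ z) T_b T_y` with `b ∉ L(y)`: `N1`: `LP M (M - L_b)`, and `M - L_b ≤ k + L_a`. If `b ∈ R(x₅ z)`: SZ (`K1`): `ℓ(z) ≤ 2`; `N0` for `T_(x₅ z) T_(b y)` (`ℓ(x₅) + 2 + 1 + ℓ(y) ≤ ℓ(x) + ℓ(y)` as `M a c ≥ 7`): `LP M M`, and `L w - L z ≥ L w - L_a - L_c ≥ L_a + L_b` (`6 L_r + 1 ≤ L w` for `r = a, b, c`). -/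
def ULOW : Prop := ∀ (S W H : Type) [Group W] [Ring H] [Algebra ℤ[T;T⁻¹] H] (X : TD S W H) (M n : ℕ)
    (a b c : S) (x x₅ y : W), X.Id M → X.N0 M n → X.N1 M n → a ≠ b → a ≠ c → b ≠ c → X.M a c ≠ 2 →
  XR X.cs {a, b} x → XL X.cs {a, b} y → XR X.cs {a, c} x₅ → x * X.cs.simple a = x₅ * w0 X.cs a c →
  X.cs.length x + X.cs.length y = n → X.Ge (M + 1) (w0 X.cs a c) →
  X.LP M 1 (X.D.t (x₅ * (w0 X.cs a c * X.cs.simple c)) * X.D.t (X.cs.simple b * y)) →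
  X.LP M (max 0 ((M : ℤ) - X.L (X.cs.simple a * X.cs.simple b)))
    (X.D.t x * X.D.t (X.cs.simple a * X.cs.simple b) * X.D.t y)

/-- PACKET LL-UA0 (2.5 h). From `KD1`, `KD2`, `HWT`, `HW0`, `RA0`, `ULOW`. Type A, `a ~ c`, `b ~ c`.

PROOF. `x a = x₅ w_ac`, `XR {a,c} x₅` (`a, c ∈ R(x a)`, `KD2`), `b y = w_bc y₅`, `XL {b,c} y₅`. `h = w_ac c`, `k = c w_bc`. If `Ge (M+1) w_ac`: `ULOW`; `T_(x₅ h) T_(b y) = T_(x₅ h) T_(w_bc y₅) = T_(x₅ h w_bc y₅)` by `RA0` (second clause), `LP.t`. Otherwise `M ≥ α(w_ac) = L(w_ac) ≥ 6 L_r + 1` for all `r` (`HW0`, `HWT`). `T_x T_(ab) T_y = T_(x a) T_(b y) = T_(x₅ h) T_c T_c T_(k y₅)`,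
`T_c T_c = 1 + ξ_c T_c`: `= T_(x₅ h) T_(k y₅) + ξ_c T_(x₅ h) T_(w_bc y₅)`; both products are reduced (`RA0`), so the element is in `LP M (L_c + 1)` (`LP.t`, `LP.smul_xi`), and `L_c + 1 ≤ M - L_a - L_b`. -/
def UA0 : Prop := ∀ (S W H : Type) [Group W] [Ring H] [Algebra ℤ[T;T⁻¹] H] (X : TD S W H) (M n : ℕ)
    (a b c : S) (x y : W), X.Id M → X.N0 M n → X.N1 M n → a ≠ b → a ≠ c → b ≠ c → X.M a c ≠ 2 → X.M b c ≠ 2 →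
  XR X.cs {a, b} x → XL X.cs {a, b} y → X.cs.IsRightDescent (x * X.cs.simple a) c →
  X.cs.IsLeftDescent (X.cs.simple b * y) c → X.cs.length x + X.cs.length y = n →
  X.LP M (max 0 ((M : ℤ) - X.L (X.cs.simple a * X.cs.simple b)))
    (X.D.t x * X.D.t (X.cs.simple a * X.cs.simple b) * X.D.t y)

/-- PACKET LL-UA1 (2.5 h). From `KD1`, `KD2`, `HWT`, `HW0`, `RA1`, `ULOW`. Type A, `m_bc = 2` (so `a ~ b`, `a ~ c`), first case.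

PROOF. `b, c ∈ L(b y)`, so `c ∈ L(y)` (`KD2` (2)): `y = c y₅` reduced, `y₅ = c y`; `c ∉ L(y₅)`; `b ∉ L(y₅)` (otherwise `b ∈ L(c y₅) = L(y)` by `KD2` (6)): `XL {b,c} y₅`. The hypothesis says `a ∉ L(b y₅)`. `x a = x₅ w_ac`, `XR {a,c} x₅`, `x = x₅ w_ac a`. `h = w_ac c`. `T_(b y) = T_b T_c T_(y₅) = T_c T_b T_(y₅) = T_c T_(b y₅)` (`m_bc = 2`; `ℓ(b y₅) = ℓ(y₅) + 1`). `T_(x₅ h) T_c = T_(x₅ w_ac)`.
Both `x₅ h . (b y₅)` and `x₅ w_ac . (b y₅)` are reduced (`RA1`). If `Ge (M+1) w_ac`: `ULOW` with `T_(x₅ h) T_(b y) = T_(x₅ w_ac) T_(b y₅) = T_(..)`, `LP.t`. Otherwise `M ≥ 6 L_r + 1` for all `r`, and `T_x T_(ab) T_y = T_(x₅ w_ac) T_(b y) = T_(x₅ h) T_c T_c T_(b y₅) = T_(x₅ h) T_(b y₅) + ξ_c T_(x₅ w_ac) T_(b y₅)` is in `LP M (L_c + 1)`. -/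
def UA1 : Prop := ∀ (S W H : Type) [Group W] [Ring H] [Algebra ℤ[T;T⁻¹] H] (X : TD S W H) (M n : ℕ)
    (a b c : S) (x y : W), X.Id M → X.N0 M n → X.N1 M n → a ≠ b → a ≠ c → X.M b c = 2 →
  XR X.cs {a, b} x → XL X.cs {a, b} y → X.cs.IsRightDescent (x * X.cs.simple a) c →
  X.cs.IsLeftDescent (X.cs.simple b * y) c → X.cs.length x + X.cs.length y = n →
  ¬ X.cs.IsLeftDescent (X.cs.simple b * (X.cs.simple c * y)) a →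
  X.LP M (max 0 ((M : ℤ) - X.L (X.cs.simple a * X.cs.simple b)))
    (X.D.t x * X.D.t (X.cs.simple a * X.cs.simple b) * X.D.t y)

/-- PACKET LL-UA2 (3.5 h). From `KD1`, `KD2`, `K1`, `GEO`, `HWT`, `HW0`, `RA1`, `HRL`. Type A, `m_bc = 2`, second case: `a ∈ L(b c y)`.

PROOF. `y = c y₅`, `XL {b,c} y₅` as in `UA1`. `a, b ∈ L(b y₅)`: `b y₅ = w_ab y₆`, `XL {a,b} y₆`, `y₅ = (b w_ab) y₆`, `m := m_ab ≥ 7`, `ℓ(y) = m + ℓ(y₆)`. `k₀ := max 0 (M - L_a - L_b)`, `w := w_ab`.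
HIGH: not `Ge (M+1) w`: `M ≥ L w ≥ 6 L_r + 1` for all `r` (`HW0`, `HWT`). `x a = x₅ w_ac`, `h = w_ac c`, `X' := x₅ h a`, `XR {a,b} X'` (`RA1`), `x₅ h = X' a` reduced. As in `UA1` `T_x T_(ab) T_y = T_(x₅ h) T_(b y₅) + ξ_c T_(x a) T_(b y₅)` and `T_(x₅ h) T_(w y₆) = T_(X') T_a T_w T_(y₆) = T_(X') (T_(a w) + ξ_a T_w) T_(y₆)`, `T_(x a) T_(w y₆) = T_x (T_(a w) + ξ_a T_w) T_(y₆)`; the triples `(X', a w, y₆)`,
`(X', w, y₆)`, `(x, a w, y₆)`, `(x, w, y₆)` are reduced by `GEO` (second part, lengths `≥ 6`). So all is in `LP M (L_a + L_c + 1)`, `≤ M - L_a - L_b`.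
LOW: `Ge (M+1) w`. `Z := T_x T_a T_c`. `T_x T_(ab) T_y = T_x T_a T_b T_c T_(y₅) = Z T_b T_(y₅) = Z T_(w y₆)`. `HRL` (second clause, pair `{a,b}`, `k := k₀`): it suffices that `Z T_(z y₆) ∈ LP M (k₀ + L w - L z)` for `z ∈ W_ab`, `z ≠ w`.
(i) `z = b w`: `Z T_(y₅) = T_x T_a T_(c y₅) = T_x T_a T_y`: `N1` (`a ∉ R(x)`, `a ∉ L(y)`): `LP M (M - L_a)`, `L w - L z = L_b`. (ii) `z = a w`: `b ∈ L(z)`, `z = b k'`, `ℓ(k') = m - 2`, `L(k') ∩ {a,b} = {a}`, `c ∉ L(k' y₆)` (left SZ, `ℓ(k') ≥ 3`). `Z T_(z y₆) = T_x T_a T_c T_b T_(k' y₆) = T_x T_(ab) T_(c k' y₆)` (`T_c T_b = T_b T_c`). `y' := c k' y₆`: `b ∉ L(y')` (otherwise `b ∈ L(c y') = L(k' y₆)`, `KD2` (2)),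
`a ∉ L(y')` by CA (`K1`, `u = k' y₆`: `a ∈ L(u)`, `b ∈ L(a u)`, `c ∉ L(u)`): `XL {a,b} y'`, `ℓ(y') = m - 1 + ℓ(y₆) = ℓ(y) - 1`: `N2 M n`: `LP M (max 1 (M - L_a - L_b))`, and `L w - L z = L_a ≥ 1`. (iii) other `z`: `ℓ(z) ≤ m - 2` (if `ℓ(z) = m - 1` then `w = s z`, `s ∈ {a, b}`), `L w - L z ≥ L_a + L_b`. If `c ∉ L(z y₆)`: `Z T_(z y₆) = T_(x a) T_(c z y₆)`, lengths `ℓ(x) + 1 + 1 + ℓ(z) + ℓ(y₆) ≤ ℓ(x) + ℓ(y)`: `N0`: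
`LP M M`. If `c ∈ L(z y₆)`: `ℓ(z) ≤ 2` (left SZ), `T_c T_(z y₆) = T_(c z y₆) + ξ_c T_(z y₆)`: `T_(x a) T_(c z y₆) + ξ_c T_(x a) T_(z y₆) ∈ LP M (M + L_c)` by `N0`, and `L w - L z ≥ L w - L_a - L_b ≥ L_a + L_b + L_c` (`6 L_r + 1 ≤ L w`, `r = a, b, c`). -/
def UA2 : Prop := ∀ (S W H : Type) [Group W] [Ring H] [Algebra ℤ[T;T⁻¹] H] (X : TD S W H) (M n : ℕ)
    (a b c : S) (x y : W), X.Id M → X.N0 M n → X.N1 M n → X.N2 M n → a ≠ b → a ≠ c → X.M b c = 2 →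
  XR X.cs {a, b} x → XL X.cs {a, b} y → X.cs.IsRightDescent (x * X.cs.simple a) c →
  X.cs.IsLeftDescent (X.cs.simple b * y) c → X.cs.length x + X.cs.length y = n →
  X.cs.IsLeftDescent (X.cs.simple b * (X.cs.simple c * y)) a →
  X.LP M (max 0 ((M : ℤ) - X.L (X.cs.simple a * X.cs.simple b)))
    (X.D.t x * X.D.t (X.cs.simple a * X.cs.simple b) * X.D.t y)

/-- PACKET LL-UB (3 h). From `KD1`, `KD2`, `HWT`, `HW0`, `RA0`, `HRL`. Type B: `g = a c`, `m_ab = 2`, so `a ~ c`, `b ~ c` (`mat`).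

PROOF. `x' := x b`, `x = x' b` reduced. `a ∉ R(x')` (otherwise `a ∈ R(x' b) = R(x)` by `KD2` (5)). `a, c ∈ R(x' a)`: `x' a = x₅ w_ac`, `XR {a,c} x₅`, `ℓ(x) = ℓ(x' a) = ℓ(x₅) + m`, `m = m_ac`. `b, c ∈ L(b c y)` (`b ∉ L(c y)`): `b c y = w_bc y₅`, `XL {b,c} y₅`, `ℓ(b c y) = ℓ(y) + 2`. `T_x T_(ac) T_y = T_(x') T_b T_a T_c T_y = T_(x') T_a T_b T_c T_y = T_(x' a) T_(b c y) = T_(x₅ w_ac) T_(w_bc y₅)`. `h = w_ac c`, `k = c w_bc`.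
`k₀ := max 0 (M - L_a - L_c)`. HIGH: not `Ge (M+1) w_ac`: `M ≥ L(w_ac) ≥ 6 L_r + 1`: `= T_(x₅ h) T_(k y₅) + ξ_c T_(x₅ h) T_(w_bc y₅)` with reduced products (`RA0`): `LP M (L_c + 1)`, `L_c + 1 ≤ M - L_a - L_c`. LOW: `Ge (M+1) w_ac`: `HRL` (first clause, `Z = T_(b c y)`): `z = h`: `T_(x₅ h) T_(w_bc y₅)` is reduced (`RA0`): `LP M 1`, `L w - L h = L_c`. `z = w_ac a`: `x₅ z = x'`; `T_(x') T_b T_c T_y = T_x T_c T_y`: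
`N1` (`c ∉ R(x)`, `c ∉ L(y)`): `LP M (M - L_c)`, `L w - L z = L_a`. Other `z ≠ w_ac`: `ℓ(z) ≤ m - 2` (if `ℓ(z) = m - 1` then `w_ac = z s`, `s ∈ {a,c}`), `L w - L z ≥ L_a + L_c`; `N0` for `T_(x₅ z) T_(b c y)`: `ℓ(x₅) + m - 2 + ℓ(y) + 2 = ℓ(x) + ℓ(y)`: `LP M M`. -/
def UB : Prop := ∀ (S W H : Type) [Group W] [Ring H] [Algebra ℤ[T;T⁻¹] H] (X : TD S W H) (M n : ℕ)
    (a b c : S) (x y : W), X.Id M → X.N0 M n → X.N1 M n → a ≠ c → b ≠ c → X.M a b = 2 →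
  XR X.cs {a, c} x → XL X.cs {a, c} y → X.cs.IsRightDescent x b →
  X.cs.IsRightDescent (x * X.cs.simple b * X.cs.simple a) c → ¬ X.cs.IsLeftDescent (X.cs.simple c * y) b →
  X.cs.IsLeftDescent (X.cs.simple b * X.cs.simple c * y) c → X.cs.length x + X.cs.length y = n →
  X.LP M (max 0 ((M : ℤ) - X.L (X.cs.simple a * X.cs.simple c)))
    (X.D.t x * X.D.t (X.cs.simple a * X.cs.simple c) * X.D.t y)

/-- PACKET LL-UC (3 h). From `KD1`, `KD2`, `K1`, `HWT`, `HW0`, `RC`, `HRL`. Type C: `g = a b a`, `m_bc = 2`, so `a ~ b`, `a ~ c` (`mat`). The last hypothesis (on `ℓ(g) = 2`) is the estimate for full triples with `ℓ(g) = 2`, also for `ℓ(x) + ℓ(y) = n`.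

PROOF. `a, c ∈ R(x a)`: `x a = x₅ w_ac`, `XR {a,c} x₅`; `a, c ∈ L(a y)`: `a y = w_ac y₅`, `XL {a,c} y₅`. `x = x₅ w_ac a`, `y = a w_ac y₅`, `m = m_ac`, `ℓ(x) + 1 = ℓ(x₅) + m`. `h = w_ac c`, `k = c w_ac`. `T_x T_(aba) T_y = T_(x a) T_b T_(a y) = T_(x₅ w_ac) T_b T_(w_ac y₅)`. `k₀ := max 0 (M - 2 L_a - L_b)`. HIGH: not `Ge (M+1) w_ac`: `M ≥ 6 L_r + 1`: `T_(x₅ h) T_c T_b T_c T_(k y₅) = T_(x₅ h) T_b (1 + ξ_c T_c) T_(k y₅)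
= T_(x₅ h) T_b T_(k y₅) + ξ_c T_(x₅ w_ac) T_b T_(k y₅)` (`T_c T_b = T_b T_c`), both reduced (`RC`): `LP M (L_c + 1)`, `≤ M - 2 L_a - L_b`. LOW: `Ge (M+1) w_ac`: `HRL` (first clause, `Z = T_b T_(a y) = T_(b a y)`, reduced since `XL {a,b} y`): for `z ∈ W_ac`, `z ≠ w_ac`, show `T_(x₅ z) T_b T_(a y) ∈ LP M (k₀ + L w - L z)`. `z = h`: `T_(x₅ h) T_b T_c T_(k y₅) = T_(x₅ w_ac) T_b T_(k y₅)`, reduced (`RC`): `LP M 1`, `L w - L h = L_c ≥ 1`.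
`ℓ(z) ≤ 3`: `N0` for `T_(x₅ z) T_(b a y)` (`ℓ(x₅) + 3 + 2 + ℓ(y) ≤ n`): `LP M M`, `L w - L z ≥ 2 L_a + L_b` (`HWT`: `L z ≤ 2 L_a + L_c` or `≤ L_a + 2 L_c`, `6 L_r + 1 ≤ L w`). `ℓ(z) ≥ 4`, `a ∈ R(z)`, `z ≠ h`: `ℓ(z) ≤ m - 2` (`w_ac = z s`, `s ≠ a`, otherwise), `u := x₅ (z a)`, `ℓ(z a) ≥ 3`, `a ∉ R(z a)`, `XR {a,b} u` (`KD2`, SZ); `T_(x₅ z) T_b T_(a y) = T_u T_(aba) T_y`, `ℓ(u) + ℓ(y) < n`: `N2`: `LP M (max 1 (M - 2 L_a - L_b))`, `L w - L z ≥ 1`.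
`ℓ(z) ≥ 4`, `c ∈ R(z)`: `a ∉ R(z)` (`z ≠ w_ac`), `XR {a,b} (x₅ z)` (SZ), `T_(x₅ z) T_b T_(a y) = T_(x₅ z) T_(ba) T_y`, `ℓ(x₅ z) + ℓ(y) ≤ ℓ(x₅) + m - 1 + ℓ(y) = n`, `s_b s_a` full: the last hypothesis: `LP M (max 1 (M - L_a - L_b))`; `z ≠ h`, so `L w - L z ≥ L_a` (`HWT`), and `M - L_a - L_b ≤ k₀ + L_a`, `1 ≤ k₀ + L_a`. -/
def UC : Prop := ∀ (S W H : Type) [Group W] [Ring H] [Algebra ℤ[T;T⁻¹] H] (X : TD S W H) (M n : ℕ)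
    (a b c : S) (x y : W), X.Id M → X.N0 M n → X.N2 M n → a ≠ b → a ≠ c → X.M b c = 2 →
  XR X.cs {a, b} x → XL X.cs {a, b} y → X.cs.IsRightDescent (x * X.cs.simple a) c →
  X.cs.IsLeftDescent (X.cs.simple a * y) c → X.cs.length x + X.cs.length y = n →
  (∀ (i j : S) (x' g' y' : W), i ≠ j → XR X.cs {i, j} x' → Full X.cs i j g' → XL X.cs {i, j} y' →
    X.cs.length g' = 2 → X.cs.length x' + X.cs.length y' ≤ n →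
    X.LP M (max 1 ((M : ℤ) - X.L g')) (X.D.t x' * X.D.t g' * X.D.t y')) →
  X.LP M (max 0 ((M : ℤ) - X.L (X.cs.simple a * X.cs.simple b * X.cs.simple a)))
    (X.D.t x * X.D.t (X.cs.simple a * X.cs.simple b * X.cs.simple a) * X.D.t y)

end Pool.Agent.Helper74.LL
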